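import Pool.Agent.W2helper20.KS.Stm

set_option autoImplicit false

/-!
# Piece BDK of project KS: scaling of the distance function and the boundary metric
-/

namespace Pool.Agent.W2helper88.KS

open Set Metric MeasureTheory Filter Topology
open scoped ContDiff InnerProductSpace ENNReal Pointwise
open Pool.Agent.Q176.BR Pool.Agent.W2helper20.BC Pool.Agent.W2helper25.KB Pool.Agent.W2helper20.KS

variable {n : ℕ}

/-- the metric `k ^ 2 g` -/
noncomputable def scal (k : ℝ) (g : Fld n) : Fld n := fun x => k ^ 2 • g x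

lemma scal_apply (k : ℝ) (g : Fld n) (x v w : E n) : scal k g x v w = k ^ 2 * g x v w := rfl

lemma scal_metric {k : ℝ} {g : Fld n} (hg : IsMetric g) (hk : 0 < k) : IsMetric (scal k g) where
  smooth := hg.smooth.const_smul (k ^ 2)
  symm x v w := by rw [scal_apply, scal_apply, hg.symm]
  pos x v hv := by
    rw [scal_apply]
    exact mul_pos (by positivity) (hg.pos x v hv)

lemma scal_len {k : ℝ} (g : Fld n) (hk : 0 < k) (c : ℝ → E n) :
    len (scal k g) c = k * len g c := by
  unfold len
  rw [← intervalIntegral.integral_const_mul]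
  refine intervalIntegral.integral_congr fun t _ => ?_
  change √(scal k g _ _ _) = k * √_
  rw [scal_apply, Real.sqrt_mul (sq_nonneg k), Real.sqrt_sq hk.le]

lemma scal_rdist {k : ℝ} (g : Fld n) (hk : 0 < k) (x y : E n) :
    rdist (scal k g) x y = k * rdist g x y := by
  unfold rdist
  rw [← smul_eq_mul, ← Real.sInf_smul_of_nonneg hk.le]
  congr 1
  ext L
  rw [Set.mem_smul_set]
  constructor
  · rintro ⟨c, h1, h2, h3, h4, rfl⟩
    exact ⟨len g c, ⟨c, h1, h2, h3, h4, rfl⟩, (scal_len g hk c).symm⟩
  · rintro ⟨_, ⟨c, h1, h2, h3, h4, rfl⟩, rfl⟩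
    exact ⟨c, h1, h2, h3, h4, (scal_len g hk c).symm⟩

theorem p_BDK : P_BDK := by
  intro n g g' k hg hg' hk p hp hd v hv
  rw [← scal_apply]
  refine bd_le (scal_metric hg hk) hg' hp (fun q hq => ?_) hv
  rw [scal_rdist g hk]
  exact hd q hq

end Pool.Agent.W2helper88.KS
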